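import Mathlib

namespace Pool.Agent.H.MP_3cd2af_an

open Dynamics Set Filter ExpGrowth
open scoped ENNReal

variable {X : Type} [PseudoMetricSpace X]

/-- a two-branch horseshoe gives entropy at least `log 2` -/
lemma ent_lower (T : X → X) (F K : Set X) (J : Bool → Set X) {δ : ℝ} (hδ : 0 < δ)
    (hsep : ∀ x ∈ J false, ∀ y ∈ J true, δ ≤ dist x y) (hK : K.Nonempty) (hJK : ∀ b, J b ⊆ K)
    (hKF : K ⊆ F) (hcov : ∀ b, ∀ y ∈ K, ∃ x ∈ J b, T x = y) :
    ENNReal.log 2 ≤ coverEntropy T F := by
  classical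
  choose! pre hpre1 hpre2 using hcov
  obtain ⟨z, hz⟩ := hK
  let pt : List Bool → X := fun l => l.foldr pre z
  have hptK : ∀ l, pt l ∈ K := fun l => by
    induction l with
    | nil => exact hz
    | cons b l ih => exact hJK b (hpre1 b _ ih)
  have hs : ∀ l l' : List Bool, l.length = l'.length → l ≠ l' →
      ∃ k < l.length, δ ≤ dist (T^[k] (pt l)) (T^[k] (pt l')) := by
    intro l
    induction l with
    | nil => intro l' h1 h2; exact absurd (List.length_eq_zero_iff.1 h1.symm).symm h2
    | cons b l ih =>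
      rintro (_ | ⟨b', l'⟩) h1 h2
      · simp at h1
      by_cases hb : b = b'
      · subst hb
        obtain ⟨k, hk, h⟩ := ih l' (by simpa using h1) (by simpa using h2)
        refine ⟨k + 1, by simpa using hk, ?_⟩
        rw [Function.iterate_succ_apply, Function.iterate_succ_apply]
        exact (hpre2 b _ (hptK l)).symm ▸ (hpre2 b _ (hptK l')).symm ▸ h
      · refine ⟨0, by simp, ?_⟩
        have a1 : pt (b :: l) ∈ J b := hpre1 b _ (hptK l)
        have a2 : pt (b' :: l') ∈ J b' := hpre1 b' _ (hptK l')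
        cases b <;> cases b'
        · exact absurd rfl hb
        · exact hsep _ a1 _ a2
        · rw [dist_comm]; exact hsep _ a2 _ a1
        · exact absurd rfl hb
  refine le_trans ?_ (netEntropyEntourage_le_coverEntropy T F
    (Metric.dist_mem_uniformity (half_pos hδ)))
  rw [← expGrowthSup_pow, netEntropyEntourage]
  refine expGrowthSup_monotone fun n => ?_
  have hw : ∀ w w' : Fin n → Bool, w ≠ w' →
      ∃ k < n, δ ≤ dist (T^[k] (pt (List.ofFn w))) (T^[k] (pt (List.ofFn w'))) := fun w w' h => by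
    simpa using hs (List.ofFn w) (List.ofFn w') (by simp) fun e => h (List.ofFn_injective e)
  have hi : Function.Injective fun w : Fin n → Bool => pt (List.ofFn w) := fun w w' e => by
    by_contra h
    obtain ⟨k, -, hk⟩ := hw w w' h
    simp only at e
    rw [e, dist_self] at hk
    linarith
  have hnet : IsDynNetIn T F {p | dist p.1 p.2 < δ / 2} n
      (Finset.univ.image fun w : Fin n → Bool => pt (List.ofFn w) : Finset X) := by
    refine ⟨fun x hx => ?_, fun x hx y hy hxy => ?_⟩
    · obtain ⟨w, -, rfl⟩ := Finset.mem_image.1 hx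
      exact hKF (hptK _)
    · obtain ⟨w, -, rfl⟩ := Finset.mem_image.1 hx
      obtain ⟨w', -, rfl⟩ := Finset.mem_image.1 hy
      obtain ⟨k, hk, h⟩ := hw w w' fun e => hxy (by rw [e])
      refine disjoint_left.2 fun u h1 h2 => ?_
      have a1 : dist _ _ < δ / 2 := mem_dynEntourage.1 h1 k hk
      have a2 : dist _ _ < δ / 2 := mem_dynEntourage.1 h2 k hk
      linarith [dist_triangle_right (T^[k] (pt (List.ofFn w))) (T^[k] (pt (List.ofFn w'))) (T^[k] u)]
  have := ENat.toENNReal_mono hnet.card_le_netMaxcard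
  rw [Finset.card_image_of_injective _ hi] at this
  simpa using this

/-- linear growth of separated sets gives small entropy -/
lemma ent_upper (T : X → X) (F : Set X) (h : ∀ ε > 0, ∃ C : ℕ, ∀ n, ∀ s : Finset X, ↑s ⊆ F →
    (∀ x ∈ s, ∀ y ∈ s, (∀ k < n, dist (T^[k] x) (T^[k] y) < ε) → x = y) → s.card ≤ C * (n + 1)) :
    coverEntropy T F ≤ ENNReal.log (3 / 2) := by
  rw [coverEntropy_eq_iSup_basis_netEntropyEntourage Metric.uniformity_basis_dist]
  refine iSup₂_le fun ε hε => ?_
  obtain ⟨C, hC⟩ := h ε hε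
  rw [← expGrowthSup_pow, netEntropyEntourage]
  refine expGrowthSup_le_of_eventually_le (b := 2 * C) (by finiteness) (Eventually.of_forall fun n => ?_)
  have h1 : netMaxcard T F {p | dist p.1 p.2 < ε} n ≤ (C * (n + 1) : ℕ) := by
    refine iSup₂_le fun s hs => Nat.cast_le.2 (hC n s hs.1 fun x hx y hy hxy => ?_)
    by_contra hne
    exact disjoint_left.1 (hs.2 hx hy hne) (mem_dynEntourage.2 hxy)
      (mem_dynEntourage.2 fun k _ => by simpa using hε)
  refine (ENat.toENNReal_mono h1).trans ?_
  have h2 : ((C * (n + 1) : ℕ) : ℝ) ≤ 2 * C * (3 / 2) ^ n := by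
    have := one_add_mul_le_pow (a := (1 / 2 : ℝ)) (by norm_num) n
    push_cast
    rw [show (1 : ℝ) + 1 / 2 = 3 / 2 by norm_num] at this
    nlinarith [C.cast_nonneg (α := ℝ)]
  have h3 := ENNReal.ofReal_le_ofReal h2
  rw [ENNReal.ofReal_natCast, ENNReal.ofReal_mul (by positivity), ENNReal.ofReal_mul (by positivity),
    ENNReal.ofReal_pow (by positivity), ENNReal.ofReal_div_of_pos (by positivity)] at h3
  simpa using h3

end Pool.Agent.H.MP_3cd2af_an
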